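import Pool.Agent.Lib.MP_99c1f3_lc.CG.O.Clos

/-!
# CG3, block O, module ClubA: a ladder meets every closed unbounded set
-/

set_option autoImplicit false
set_option synthInstance.maxSize 100000
set_option synthInstance.maxHeartbeats 400000

namespace Pool.Agent.CG3

open Pool.Agent.MP_5db68c_lc hiding RelIn
open Pool.Agent.StarRoth.BV Pool.Agent.Lib.MP_6b4821_lc

section

variable {M : Type} [Membership M M] [hM : IsZF M] {o d l C : M}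

/-- (CLA) Let `l` be a normal cofinal map from `o` into `d` and `C` closed unbounded in `d`. Then
`l ν ∈ C` for unboundedly many `ν`.

Proof. For `α : El o` consider the `α' : El o` with
`P α α' := α ∈ α' ∧ ∃ γ₁ γ γ₂ : M, RelIn l α γ₁ ∧ RelIn l α' γ₂ ∧ γ ∈ C ∧ γ₁ ∈ γ ∧ γ ∈ γ₂`. There is
one: `l α = γ₁ ∈ d`, `C` is unbounded: `γ ∈ C`, `γ₁ ∈ γ`; `l` is cofinal: `l α' = γ₂`, `γ ∈ γ₂`;
`α' = α` or `α' ∈ α` would give `γ₂ = γ₁` or `γ₂ ∈ γ₁`, a cycle in the ordinal `d` (`Ordl.tri` in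
`o`, transitivity, `N.no_cycle`). Let `F α` be the least such `α'` (`Ordl.exists_least`,
`DF.of_rel`). `exists_closure`: `b` with `β ∈ b`. `b` is a limit point of itself (nonempty as
`β ∈ b`; `α ∈ α' ∈ b`). Let `RelIn l b γ`. `IsLimPtIn γ C`: for `ξ ∈ γ` continuity of `l` gives
`ν' ∈ b`, `RelIn l ν' γ'`, `ξ ∈ γ'`; closure: `α' ∈ b`, `ν' ∈ α'`, `F α' ∈ b`, so `l ν' ∈ l α'` and
some `γ'' ∈ C` with `l α' ∈ γ'' ∈ l (F α') ∈ l b = γ`, and `ξ ∈ γ''` by transitivity; `γ` is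
nonempty as `l β' ∈ l b` for `β' ∈ b`. So `γ ∈ C` (`γ ∈ d`, `C` closed in `d`). -/
theorem ladder_club (ho : Ordl o) (hr : RegO o) (hd : Ordl d) (hl : IsLadderIn l o d)
    (hC : IsClubIn C d) (β : El o) : ∃ ν : El o, β.1 ∈ ν.1 ∧ ∃ γ : M, RelIn l ν.1 γ ∧ γ ∈ C := by
  obtain ⟨⟨⟨hf1, hf2, hf3⟩, hf4⟩, hmono, hcof, hcont⟩ := hl
  obtain ⟨hC1, hC2, hC3⟩ := hC
  have hdom : ∀ ν γ : M, RelIn l ν γ → ν ∈ o := by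
    intro ν γ h
    obtain ⟨z, hz, hzl⟩ := h
    obtain ⟨x, y, hx, hxy⟩ := hf1 z hzl
    rw [isOPairIn_iff] at hz hxy
    have h1 : (x, y) = (ν, γ) := Coded.inj (M := M) (hxy.trans hz.symm)
    rw [← (Prod.mk.inj h1).1]
    exact hx
  let P : El o → El o → Prop := fun α α' => α.1 ∈ α'.1 ∧
    ∃ γ₁ γ γ₂ : M, RelIn l α.1 γ₁ ∧ RelIn l α'.1 γ₂ ∧ γ ∈ C ∧ γ₁ ∈ γ ∧ γ ∈ γ₂
  have hP : DP M (fun p : El o × El o => P p.1 p.2) := by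
    show DP M (fun p : El o × El o => p.1.1 ∈ p.2.1 ∧
      ∃ γ₁ γ γ₂ : M, RelIn l p.1.1 γ₁ ∧ RelIn l p.2.1 γ₂ ∧ γ ∈ C ∧ γ₁ ∈ γ ∧ γ ∈ γ₂)
    infer_instance
  have hP' := @DP.lift₂ _ _ _ _ _ _ _ P hP
  have hex : ∀ α, ∃ α', P α α' := by
    intro α
    obtain ⟨γ₁, h1⟩ := hf2 α.1 α.2
    obtain ⟨γ, h2, h3⟩ := hC2 γ₁ (hf4 _ _ h1)
    obtain ⟨ν, γ₂, h4, h5⟩ := hcof γ (hC1 _ h2)
    have hν := hdom _ _ h4
    refine ⟨⟨ν, hν⟩, ?_, γ₁, γ, γ₂, h1, h4, h2, h3, h5⟩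
    have h6 : γ₁ ∈ γ₂ := hd.trans' γ₂ γ γ₁ (hf4 _ _ h4) h5 h3
    rcases ho.tri α ⟨ν, hν⟩ with h | h | h
    · exact h
    · have h7 : γ₁ = γ₂ := hf3 α.1 _ _ ⟨h1, by rw [h]; exact h4⟩
      rw [h7] at h6
      exact (N.no_cycle _ _ h6 h6).elim
    · exact (N.no_cycle _ _ h6 (hmono ν α.1 γ₂ γ₁ ⟨⟨h4, h1⟩, h⟩)).elim
  have hleast : ∀ α, ∃ α', P α α' ∧ ∀ j, P α j → α' = j ∨ α'.1 ∈ j.1 := fun α =>
    ho.exists_least (P α) inferInstance (hex α)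
  choose F hF1 hF2 using hleast
  have hFd : DF M F := DF.of_rel (M := M)
    (R := fun α α' => P α α' ∧ ∀ j, P α j → α' = j ∨ α'.1 ∈ j.1) inferInstance
    (fun α => ⟨hF1 α, hF2 α⟩) (by
      rintro α x y ⟨h1, h2⟩ ⟨h3, h4⟩
      rcases h2 y h3 with h5 | h5
      · exact h5
      · rcases h4 x h1 with h6 | h6
        · exact h6.symm
        · exact (N.no_cycle _ _ h5 h6).elim)
  obtain ⟨b, hβb, hb⟩ := exists_closure ho hr F hFd (fun x => (hF1 x).1) β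
  obtain ⟨γ, hγ⟩ := hf2 b.1 b.2
  have hγd := hf4 _ _ hγ
  refine ⟨b, hβb, γ, hγ, hC3 γ ⟨hγd, ?_, ?_⟩⟩
  · obtain ⟨γ', h'⟩ := hf2 β.1 β.2
    exact ⟨γ', hmono β.1 b.1 γ' γ ⟨⟨h', hγ⟩, hβb⟩⟩
  · intro ξ hξ
    obtain ⟨ν', γ', h1, h2, h3⟩ := hcont b.1 γ ⟨hγ, ⟨β.1, hβb⟩, fun α hα => by
      obtain ⟨α', h4, h5, -⟩ := hb ⟨α, ho.trans _ _ b.2 hα⟩ hα
      exact ⟨α'.1, h4, h4, h5⟩⟩ ξ hξ
    obtain ⟨α', h4, h5, h6⟩ := hb ⟨ν', ho.trans _ _ b.2 h1⟩ h1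
    obtain ⟨-, γ₁, γc, γ₂, h7, h8, h9, h10, h11⟩ := hF1 α'
    have h12 : γ₂ ∈ γ := hmono _ _ _ _ ⟨⟨h8, hγ⟩, h6⟩
    have h13 : γ' ∈ γ₁ := hmono _ _ _ _ ⟨⟨h2, h7⟩, h5⟩
    have hγ₂d := hf4 _ _ h8
    have hγcd := hC1 _ h9
    refine ⟨γc, h9, hd.trans' _ _ _ hγd h12 h11, ?_⟩
    exact hd.trans' _ _ _ hγcd h10 (hd.trans' _ _ _ (hf4 _ _ h7) h13 h3)

end

end Pool.Agent.CG3
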