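import Pool.Agent.Lib.MP_99c1f3_lc.CG.O.Reg
import Pool.Agent.Lib.MP_99c1f3_lc.CG.O.ClubA

/-!
# CG3, block O, module Omt: the principle refutes club guessing
-/

set_option autoImplicit false
set_option synthInstance.maxSize 100000
set_option synthInstance.maxHeartbeats 400000

namespace Pool.Agent.CG3

open Pool.Agent.MP_5db68c_lc hiding RelIn
open Pool.Agent.StarRoth.BV Pool.Agent.Lib.MP_6b4821_lc

section

variable {M : Type} [Membership M M] [hM : IsZFC M] {o₁ o₂ o₃ : M}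

/-- Points of cofinality `ω₁` are limits. -/
theorem InS21In.lim {d : M} (h : InS21In d (om M) o₂) : IsLimPtIn d d := by
  have h1 : ∀ A : M, (∀ x : M, x ∈ A → x ∈ d) → (∀ x y : M, x ∈ A → y ∈ A → x = y) →
      ∃ β : M, β ∈ d ∧ ∀ α : M, α ∈ A → α ∈ β := by
    intro A h1 h2
    refine h.2 A ⟨h1, ?_⟩
    show CardLeIn A (om M)
    rw [cardLeIn_iff]
    exact ⟨fun _ => N.zero, inferInstance, fun x y _ => Subtype.ext (h2 x.1 y.1 x.2 y.2)⟩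
  obtain ⟨e, he⟩ := exists_el_subset (a := d) (fun _ => False) inferInstance
  have he' : ∀ x : M, x ∉ e := fun x hx => ((he x).1 hx).2
  obtain ⟨α, hα, _⟩ := h1 e (fun x hx => (he' x hx).elim) (fun x y hx => (he' x hx).elim)
  refine ⟨⟨α, hα⟩, fun β hβ => ?_⟩
  obtain ⟨s, hs⟩ := exists_sing β
  obtain ⟨γ, hγ, hγ'⟩ := h1 s (fun x hx => by rw [(hs x).1 hx]; exact hβ)
    (fun x y hx hy => by rw [(hs x).1 hx, (hs y).1 hy])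
  exact ⟨γ, hγ, hγ, hγ' β ((hs β).2 rfl)⟩

/-- The property of a ladder in the principle. -/
def LadGood (E D o₃ o₁ l : M) : Prop :=
  ∀ x : M, x ∈ o₃ → ∃ β : M, β ∈ o₁ ∧
    ∀ ν γ : M, (RelIn l ν γ ∧ β ∈ ν) ∧ RelIn D x γ → RelIn E x ν

theorem ladGood_dp (E D o₃ o₁ : M) : DP M (fun l : M => LadGood E D o₃ o₁ l) := by
  unfold LadGood
  infer_instance

/-- Choice of the ladders. -/
theorem exists_lads (h2 : IsSuccCardIn o₂ o₁) (ho2 : Ordl o₂) (h12 : o₁ ∈ o₂) {E D : M}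
    (hlad : StarLad E D (om M) o₁ o₂ o₃) : ∃ lad : El o₂ → M, DF M lad ∧
      ∀ d : El o₂, InS21In d.1 (om M) o₂ → IsLadderIn (lad d) o₁ d.1 ∧
        LadGood E D o₃ o₁ (lad d) := by
  have _ := h2
  have hsub : ∀ x : M, x ∈ o₁ → x ∈ o₂ := fun x hx => ho2.trans _ _ h12 hx
  obtain ⟨B, hB⟩ := exists_funSet o₁ o₂
  have hI : DF M (fun x : El o₁ => (⟨x.1, hsub x.1 x.2⟩ : El o₂)) := by
    refine DF.of_rel (M := M) (R := fun (x : El o₁) (y : El o₂) => x.1 = y.1) inferInstance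
      (fun _ => rfl) ?_
    intro x y y' h h'
    exact Subtype.ext (h.symm.trans h')
  obtain ⟨l0, hl0, _⟩ := funInto_of _ hI
  have hG := ladGood_dp (M := M) E D o₃ o₁
  have hG' := @hG.lift₁
  have hR : DP M (fun q : El o₂ × M => InS21In q.1.1 (om M) o₂ →
      IsLadderIn q.2 o₁ q.1.1 ∧ LadGood E D o₃ o₁ q.2) := by infer_instance
  refine exists_choice_set (M := M) (fun (d : El o₂) (l : M) => InS21In d.1 (om M) o₂ →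
    IsLadderIn l o₁ d.1 ∧ LadGood E D o₃ o₁ l) hR B ?_
  intro d
  by_cases hd : InS21In d.1 (om M) o₂
  · rcases hlad d.1 ⟨d.2, hd.lim⟩ with ⟨A, h1, h3, h4⟩ | ⟨l, h1, h3⟩
    · exfalso
      obtain ⟨β, hβ, hβ'⟩ := hd.2 A ⟨h1, h3⟩
      obtain ⟨γ, hγ, hγ'⟩ := h4 β hβ
      exact N.no_cycle _ _ (hβ' γ hγ) hγ'
    · refine ⟨l, hB l ⟨h1.1.1, fun x y hxy => ho2.trans _ _ d.2 (h1.1.2 x y hxy)⟩, fun _ => ?_⟩
      exact ⟨h1, h3⟩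
  · exact ⟨l0, hB l0 hl0, fun h => (hd h).elim⟩

/-- The property of a colouring in the principle. -/
def ColGood (E o₃ o₁ b c : M) : Prop :=
  IsFunIntoIn c o₃ o₁ ∧ ∀ x y n : M, (RelIn c x n ∧ RelIn c y n) ∧ x ≠ y →
    ¬ ((∃ α : M, α ∈ b) ∧ ∀ α : M, α ∈ b → ∃ ν : M, (ν ∈ b ∧ α ∈ ν) ∧
      (RelIn E x ν ∧ RelIn E y ν))

theorem colGood_dp (E o₃ o₁ : M) : DP M (fun q : M × M => ColGood E o₃ o₁ q.1 q.2) := by
  unfold ColGood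
  infer_instance

/-- Choice of the colourings. -/
theorem exists_cols {E : M} (hcol : StarCol E o₁ o₃) : ∃ col : El o₁ → M, DF M col ∧
    ∀ b : El o₁, ColGood E o₃ o₁ b.1 (col b) := by
  obtain ⟨B, hB⟩ := exists_funSet o₃ o₁
  have hG := colGood_dp (M := M) E o₃ o₁
  have hG' := @DP.lift₂ _ _ _ _ _ _ _ (fun b c : M => ColGood E o₃ o₁ b c) hG
  refine exists_choice_set (M := M) (fun (b : El o₁) (c : M) => ColGood E o₃ o₁ b.1 c)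
    inferInstance B ?_
  intro b
  obtain ⟨c, h1, h2⟩ := hcol b.1 b.2
  exact ⟨c, hB c h1, h1, h2⟩

/-- `b` is a limit point of the `ν` above `β` with `l ν ∈ c`. -/
def BGood (l c β b : M) : Prop :=
  β ∈ b ∧ ∀ α : M, α ∈ b → ∃ ν : M, ν ∈ b ∧ α ∈ ν ∧ β ∈ ν ∧ ∃ γ : M, RelIn l ν γ ∧ γ ∈ c

theorem bGood_dp : DP M (fun q : (M × M) × (M × M) => BGood q.1.1 q.1.2 q.2.1 q.2.2) := by
  unfold BGood
  infer_instance

/-- Choice of the limit points. -/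
theorem exists_bs (ho1 : Ordl o₁) (ho2 : Ordl o₂) (hr : RegO o₁) {C : M} (lad : El o₂ → M)
    (hladD : DF M lad) (hlad : ∀ d : El o₂, InS21In d.1 (om M) o₂ → IsLadderIn (lad d) o₁ d.1)
    (hC0 : ∀ d c c' : M, RelIn C d c → RelIn C d c' → c = c')
    (hC1 : ∀ d c : M, RelIn C d c → IsClubIn c d) :
    ∃ bb : El o₂ × El o₁ → El o₁, DF M bb ∧ ∀ (d : El o₂) (β : El o₁),
      InS21In d.1 (om M) o₂ → ∀ c : M, RelIn C d.1 c → BGood (lad d) c β.1 (bb (d, β)).1 := by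
  have hladD' := @hladD.lift₁
  have hG' : ∀ {Γ : Type} [Coded M Γ] {f g h k : Γ → M} [DF M f] [DF M g] [DF M h] [DF M k],
      DP M (fun γ => BGood (f γ) (g γ) (h γ) (k γ)) := by
    intro Γ _ f g h k _ _ _ _
    exact DP.comp (P := fun q : (M × M) × (M × M) => BGood q.1.1 q.1.2 q.2.1 q.2.2)
      (f := fun γ => ((f γ, g γ), (h γ, k γ))) bGood_dp inferInstance
  obtain ⟨bb, h1, h2⟩ := exists_choice (M := M) (Γ := El o₂ × El o₁) (Δ := El o₁)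
    (fun q b => InS21In q.1.1 (om M) o₂ → ∀ c : M, RelIn C q.1.1 c →
      BGood (lad q.1) c q.2.1 b.1) inferInstance (by
    rintro ⟨d, β⟩
    show ∃ b : El o₁, InS21In d.1 (om M) o₂ → ∀ c : M, RelIn C d.1 c →
      BGood (lad d) c β.1 b.1
    by_cases hd : InS21In d.1 (om M) o₂
    · by_cases hc : ∃ c : M, RelIn C d.1 c
      · obtain ⟨c, hc⟩ := hc
        have hA : DP M (fun ν : El o₁ => ∃ γ : M, RelIn (lad d) ν.1 γ ∧ γ ∈ c) := by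
          infer_instance
        obtain ⟨b, hb1, hb2⟩ := exists_limPt ho1 hr _ hA
          (ladder_club ho1 hr (ordl_of_mem ho2 d.2) (hlad d hd) (hC1 _ _ hc)) β
        refine ⟨b, fun _ c' hc' => ?_⟩
        rw [← hC0 _ _ _ hc hc']
        refine ⟨hb1, fun α hα => ?_⟩
        obtain ⟨ν, h3, h4, h5, h6⟩ := hb2 ⟨α, ho1.trans _ _ b.2 hα⟩ hα
        exact ⟨ν.1, h3, h4, h5, h6⟩
      · exact ⟨β, fun _ c hc' => (hc ⟨c, hc'⟩).elim⟩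
    · exact ⟨β, fun h => (hd h).elim⟩)
  exact ⟨bb, h1, fun d β => h2 (d, β)⟩

/-- The principle refutes club guessing for `S^{ω₂}_{ω₁}`. -/
theorem not_hasCG {w : M} (hw : IsOmegaIn w) (h1 : IsSuccCardIn o₁ w) (h2 : IsSuccCardIn o₂ o₁)
    (h3 : IsSuccCardIn o₃ o₂) (hs : StarIn w o₁ o₂ o₃) : ¬ HasCGIn w o₂ := by
  have hw' := isOmegaIn_iff.1 hw
  subst hw'
  obtain ⟨⟨p₀, hp₀⟩, ⟨p, hp⟩, E, D, hD, hlad, hcol⟩ := hs
  rintro ⟨S, C, hS, hC, hC1, hC2⟩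
  have ho1 : Ordl o₁ := isOrdIn_iff.1 h1.1
  have ho2 : Ordl o₂ := isOrdIn_iff.1 h2.1
  have hr : RegO o₁ := fun F hF => reg h1 hp₀ F hF
  have h12 : o₁ ∈ o₂ := h2.mem ho1
  have hsub : ∀ x : M, x ∈ o₁ → x ∈ o₂ := fun x hx => ho2.trans _ _ h12 hx
  have hC0 : ∀ d c c' : M, RelIn C d c → RelIn C d c' → c = c' :=
    fun d c c' h h' => hC.2.2 d c c' ⟨h, h'⟩
  have hCS : ∀ d c : M, RelIn C d c → InS21In d (om M) o₂ := by
    intro d c hdc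
    obtain ⟨z, hz, hzC⟩ := hdc
    obtain ⟨d', c', hd', hz'⟩ := hC.1 z hzC
    have h4 := (isOPairIn_iff.1 hz).trans (isOPairIn_iff.1 hz').symm
    have h5 : (d, c) = (d', c') := Coded.inj h4
    have h6 : d = d' := congrArg Prod.fst h5
    rw [h6]
    exact (hS d').1 hd'
  obtain ⟨lad, hladD, hlad'⟩ := exists_lads h2 ho2 h12 hlad
  obtain ⟨col, hcolD, hcol'⟩ := exists_cols hcol
  obtain ⟨bb, hbbD, hbb⟩ := exists_bs ho1 ho2 hr lad hladD (fun d hd => (hlad' d hd).1) hC0 hC1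
  have hladD' := @hladD.lift₁
  have hcolD' := @hcolD.lift₁
  have hbbD' := @hbbD.lift₁
  apply h3.2.1
  refine cardLeIn_of_rel (fun (x : El o₃) (z : El o₂) => ∃ (d : El o₂) (β ξ : El o₁) (c : M)
    (u : El o₂), InS21In d.1 (om M) o₂ ∧ RelIn C d.1 c ∧ (∀ γ : M, γ ∈ c → RelIn D x.1 γ) ∧
      (∀ ν γ : M, (RelIn (lad d) ν γ ∧ β.1 ∈ ν) ∧ RelIn D x.1 γ → RelIn E x.1 ν) ∧
      RelIn (col (bb (d, β))) x.1 ξ.1 ∧ TRelIn p β.1 ξ.1 u.1 ∧ TRelIn p d.1 u.1 z.1)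
    inferInstance ?_ ?_
  · intro x
    obtain ⟨Dx, hDx⟩ := exists_el_subset (a := o₂) (fun γ : El o₂ => RelIn D x.1 γ.1)
      inferInstance
    have hclub : IsClubIn Dx o₂ := by
      refine ⟨fun z hz => ((hDx z).1 hz).1, fun α hα => ?_, fun γ hγ => ?_⟩
      · obtain ⟨γ, h4, h5⟩ := hD.2.1 x.1 α ⟨x.2, hα⟩
        exact ⟨γ, (hDx γ).2 ⟨hD.1 _ _ h4, h4⟩, h5⟩
      · refine (hDx γ).2 ⟨hγ.1, hD.2.2 x.1 γ ⟨⟨x.2, hγ.1⟩, hγ.2.1, fun α hα => ?_⟩⟩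
        obtain ⟨β, h4, h5⟩ := hγ.2.2 α hα
        exact ⟨β, ((hDx β).1 h4).2, h5⟩
    obtain ⟨d, c, hdc, hcD⟩ := hC2 Dx hclub
    have hd := hCS d c hdc
    obtain ⟨β, hβ, hβ'⟩ := (hlad' ⟨d, hd.1⟩ hd).2 x.1 x.2
    obtain ⟨ξ, hξ⟩ := (hcol' (bb (⟨d, hd.1⟩, ⟨β, hβ⟩))).1.1.2.1 x.1 x.2
    have hξ1 := (hcol' (bb (⟨d, hd.1⟩, ⟨β, hβ⟩))).1.2 _ _ hξ
    obtain ⟨u, hu, hu'⟩ := hp.1 β ξ ⟨hsub _ hβ, hsub _ hξ1⟩
    obtain ⟨z, hz, hz'⟩ := hp.1 d u ⟨hd.1, hu⟩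
    exact ⟨⟨z, hz⟩, ⟨d, hd.1⟩, ⟨β, hβ⟩, ⟨ξ, hξ1⟩, c, ⟨u, hu⟩, hd, hdc,
      fun γ hγ => ((hDx γ).1 (hcD γ hγ)).2, hβ', hξ, hu', hz'⟩
  · rintro x x' z ⟨d, β, ξ, c, u, g1, g2, g3, g4, g5, g6, g7⟩
      ⟨d', β', ξ', c', u', g1', g2', g3', g4', g5', g6', g7'⟩
    obtain ⟨e1, e2⟩ := hp.2 _ _ _ _ _ ⟨g7, g7'⟩
    have e1' : d = d' := Subtype.ext e1
    have e2' : u = u' := Subtype.ext e2
    subst e1' e2'
    obtain ⟨e3, e4⟩ := hp.2 _ _ _ _ _ ⟨g6, g6'⟩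
    have e3' : β = β' := Subtype.ext e3
    have e4' : ξ = ξ' := Subtype.ext e4
    subst e3' e4'
    have e5 : c = c' := hC0 _ _ _ g2 g2'
    subst e5
    by_contra hne
    have hne' : x.1 ≠ x'.1 := fun h => hne (Subtype.ext h)
    obtain ⟨hb1, hb2⟩ := hbb d β g1 c g2
    refine (hcol' (bb (d, β))).2 x.1 x'.1 ξ.1 ⟨⟨g5, g5'⟩, hne'⟩ ⟨⟨_, hb1⟩, fun α hα => ?_⟩
    obtain ⟨ν, h4, h5, h6, γ, h7, h8⟩ := hb2 α hα
    exact ⟨ν, ⟨h4, h5⟩, g4 ν γ ⟨⟨h7, h6⟩, g3 γ h8⟩, g4' ν γ ⟨⟨h7, h6⟩, g3' γ h8⟩⟩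

end

end Pool.Agent.CG3
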