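import Pool.Agent.Lib.MP_99c1f3_lc.CG.O.Fun

/-!
# CG3, block O, module Ord8: Cantor-Bernstein for an inclusion
-/

set_option autoImplicit false
set_option synthInstance.maxSize 100000
set_option synthInstance.maxHeartbeats 400000

namespace Pool.Agent.CG3

open Pool.Agent.MP_5db68c_lc hiding RelIn
open Pool.Agent.StarRoth.BV Pool.Agent.Lib.MP_6b4821_lc

section

variable {M : Type} [Membership M M] [hM : IsZF M] {κ l : M}

/-- (ORD8) Cantor-Bernstein for an inclusion: no cardinal `κ` injects into one of its elements.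

Proof. Let `f : El κ → El l` be injective and definable (`cardLeIn_iff`), `l ⊆ κ` as `κ` is
transitive. Let `A := Ind M (fun x => x.1 ∉ l) (fun x y => y.1 = (f x).1) : El κ → Prop` (the least
predicate which contains `κ \ l` and is closed under `f`; definable by `Ind.DP`). The relation
`R (y : El l) (x : El κ) := (A x ∧ f x = y) ∨ (¬ A x ∧ x.1 = y.1)` is the graph of a bijection from
`l` onto `κ`: every `x` has exactly one `y` (if `¬ A x` then `x ∈ l`); for `y ∈ l` let `x' : El κ`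
be `y`; if `A x'` then by `Ind.inv` `y = f x` for some `x` with `A x`; if `¬ A x'` take `x = x'`;
`x` is unique: `f x = y = x''` with `A x` gives `A x''`, and `f` is injective. So
`∃ g, IsBijIn g l κ` (`funInto_of`), contrary to `IsCardIn κ`. -/
theorem isCardIn_not_le (h : IsCardIn κ) (hl : l ∈ κ) : ¬ CardLeIn κ l := by
  intro hle
  obtain ⟨F, hF, hinj⟩ := cardLeIn_iff.1 hle
  have hF' := @hF.lift₁
  have hsub : ∀ x : M, x ∈ l → x ∈ κ := h.1.1 l hl
  let B : El κ → Prop := fun x => x.1 ∉ l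
  let S : El κ → El κ → Prop := fun x y => y.1 = (F x).1
  have hB : DP M B := by
    show DP M (fun x : El κ => x.1 ∉ l)
    infer_instance
  have hS : DP M (fun p : El κ × El κ => S p.1 p.2) := by
    show DP M (fun p : El κ × El κ => p.2.1 = (F p.1).1)
    infer_instance
  have hA0 : DP M (Ind M B S) := Ind.DP hB hS
  have hA := @hA0.lift₁
  let R : El l → El κ → Prop := fun y x => (Ind M B S x ∧ F x = y) ∨ (¬ Ind M B S x ∧ x.1 = y.1)
  have hR : DP M (fun p : El l × El κ => R p.1 p.2) := by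
    show DP M (fun p : El l × El κ =>
      (Ind M B S p.2 ∧ F p.2 = p.1) ∨ (¬ Ind M B S p.2 ∧ p.2.1 = p.1.1))
    infer_instance
  have hex : ∀ y : El l, ∃ x : El κ, R y x := by
    intro y
    by_cases hy : Ind M B S ⟨y.1, hsub _ y.2⟩
    · rcases Ind.inv hB hS hy with h1 | ⟨x, h1, h2⟩
      · exact (h1 y.2).elim
      · exact ⟨x, Or.inl ⟨h1, Subtype.ext h2.symm⟩⟩
    · exact ⟨⟨y.1, hsub _ y.2⟩, Or.inr ⟨hy, rfl⟩⟩
  have hun : ∀ (y : El l) (x x' : El κ), R y x → R y x' → x = x' := by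
    rintro y x x' (⟨h1, h2⟩ | ⟨h1, h2⟩) (⟨h3, h4⟩ | ⟨h3, h4⟩)
    · exact hinj (h2.trans h4.symm)
    · refine (h3 (Ind.step h1 ?_)).elim
      show x'.1 = (F x).1
      rw [h2, h4]
    · refine (h1 (Ind.step h3 ?_)).elim
      show x.1 = (F x').1
      rw [h4, h2]
    · exact Subtype.ext (h2.trans h4.symm)
  choose G hG using hex
  have hGd : DF M G := DF.of_rel (M := M) (R := R) hR hG hun
  obtain ⟨g, hg, hgr⟩ := funInto_of G hGd
  refine h.2 l hl ⟨g, ⟨hg.1, hg.2, ?_⟩, ?_⟩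
  · rintro x x' y ⟨h1, h2⟩
    obtain ⟨hx, hy, e1⟩ := (hgr x y).1 h1
    obtain ⟨hx', _, e2⟩ := (hgr x' y).1 h2
    have r1 := hG ⟨x, hx⟩
    have r2 := hG ⟨x', hx'⟩
    rw [e1] at r1
    rw [e2] at r2
    rcases r1 with ⟨h3, h4⟩ | ⟨h3, h4⟩
    · rcases r2 with ⟨h5, h6⟩ | ⟨h5, h6⟩
      · exact congrArg Subtype.val (h4.symm.trans h6)
      · exact (h5 h3).elim
    · rcases r2 with ⟨h5, h6⟩ | ⟨h5, h6⟩
      · exact (h3 h5).elim
      · exact h4.symm.trans h6
  · intro y hy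
    by_cases hA' : Ind M B S ⟨y, hy⟩
    · refine ⟨(F ⟨y, hy⟩).1, (hgr _ _).2 ⟨(F ⟨y, hy⟩).2, hy, ?_⟩⟩
      exact hun _ _ _ (hG _) (Or.inl ⟨hA', rfl⟩)
    · have hyl : y ∈ l := by
        by_contra hn
        exact hA' (Ind.base hn)
      refine ⟨y, (hgr _ _).2 ⟨hyl, hy, ?_⟩⟩
      exact hun _ _ _ (hG _) (Or.inr ⟨hA', rfl⟩)

end

end Pool.Agent.CG3
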