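import Pool.Agent.Lib.MP_99c1f3_lc.CG.O.Up2
import Pool.Agent.Lib.MP_99c1f3_lc.CG.O.Omt
import Pool.Agent.Lib.MP_99c1f3_lc.CG.O.Ord8

/-!
# CG3, block O, module Fin: from the model to the answer
-/

set_option autoImplicit false
set_option synthInstance.maxSize 100000
set_option synthInstance.maxHeartbeats 400000

namespace Pool.Agent.CG3

open Pool.Agent.MP_5db68c_lc hiding RelIn
open Pool.Agent.StarRoth.BV Pool.Agent.Lib.MP_6b4821_lc

/-- In an outer model a successor cardinal of the ground model which is still a cardinal is the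
successor cardinal of the same ordinal. -/
theorem IsTransEmb.succCard {M N : Type} [Membership M M] [Membership N N] [IsZF M] [IsZF N]
    {j : M → N} (hj : IsTransEmb j) {o o' : M} (ho : IsOrdIn o) (h : IsSuccCardIn o' o)
    (hc : IsCardIn (j o')) : IsSuccCardIn (j o') (j o) := by
  have h1 : o ∈ o' := h.mem (isOrdIn_iff.1 ho)
  refine ⟨hc.1, isCardIn_not_le hc ((hj.mem_iff _ _).2 h1), ?_⟩
  intro α hα
  obtain ⟨β, hβ, rfl⟩ := hj.mem.1 hα
  exact hj.cardLe (h.2.2 β hβ)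

/-- The answer, from the model. -/
theorem answer_of_stM (h : ∃ (M : Type) (_ : Membership M M), Countable M ∧ ModelZFC M ∧ StM M) :
    Answer := by
  obtain ⟨M, iM, hc, hM, w, o₁, o₂, o₃, L, hw, h1, h2, h3, ⟨hL, hsl⟩, hs⟩ := h
  refine ⟨M, iM, hc, hM, w, o₁, o₂, o₃, L, hw, h1, h2, h3, hL, hsl, ?_⟩
  intro N iN j hN hj hc1 hc2 hc3 hcg
  have : IsZFC M := ⟨hM⟩
  have : IsZFC N := ⟨hN⟩
  have how : IsOrdIn w := by
    rw [isOmegaIn_iff.1 hw]
    exact isOrdIn_iff.2 ordl_om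
  have hw' := hj.omega hw
  have h1' := hj.succCard how h1 hc1
  have h2' := hj.succCard h1.1 h2 hc2
  have h3' := hj.succCard h2.1 h3 hc3
  obtain ⟨w₀, p₁, p₂, hw₀, g1, g2, hcg⟩ := hcg
  have e0 : w₀ = j w := (isOmegaIn_iff.1 hw₀).trans (isOmegaIn_iff.1 hw').symm
  subst e0
  have e1 : p₁ = j o₁ := g1.unique h1'
  subst e1
  have e2 : p₂ = j o₂ := g2.unique h2'
  subst e2
  exact not_hasCG hw' h1' h2' h3' (hj.star hs) hcg

end Pool.Agent.CG3
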