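import Pool.Agent.Lib.MP_99c1f3_lc.CG.St
import Pool.Agent.Lib.MP_6b4821_lc.ICard
import Pool.Agent.Lib.MP_6b4821_lc.IRec

/-!
# CG3, block O, module Base: the notions of `CG.St` in the typed calculus of definable sets
-/

set_option autoImplicit false
set_option synthInstance.maxSize 100000
set_option synthInstance.maxHeartbeats 400000

namespace Pool.Agent.CG3

open Pool.Agent.MP_5db68c_lc hiding RelIn
open Pool.Agent.StarRoth.BV Pool.Agent.Lib.MP_6b4821_lc

section

variable {M : Type} [Membership M M] [hM : IsZF M]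

theorem isOPairIn_iff {z x y : M} : IsOPairIn z x y ↔ (Coded.code (x, y) : M) = z := by
  obtain ⟨a, ha⟩ := exists_sing x
  obtain ⟨b, hb⟩ := hM.zf.pairing x y
  have ha' : IsUPairIn a x x := fun t => by rw [ha]; simp
  have hp : ∀ z : M, IsOPairIn z x y ↔ IsUPairIn z a b := by
    intro z
    constructor
    · rintro ⟨a', b', h1, h2, h3⟩
      have e1 : a' = a := ext' fun t => by rw [h1, ha]; simp
      have e2 : b' = b := ext' fun t => by rw [h2, hb]
      rw [← e1, ← e2]
      exact h3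
    · intro h
      exact ⟨a, b, ha', hb, h⟩
  have hc : IsUPairIn (Coded.code (x, y) : M) a b := by
    intro t
    have h1 : t ∈ (Coded.code (x, y) : M) ↔
        (∀ w : M, w ∈ t ↔ w = x) ∨ (∀ w : M, w ∈ t ↔ w = x ∨ w = y) := isPair_pr x y t
    rw [h1]
    constructor
    · rintro (h | h)
      · exact Or.inl (ext' fun w => by rw [h, ha])
      · exact Or.inr (ext' fun w => by rw [h, hb])
    · rintro (h | h)
      · exact Or.inl fun w => by rw [h, ha]
      · exact Or.inr fun w => by rw [h, hb]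
  rw [hp]
  constructor
  · intro h
    exact ext' fun t => by rw [hc, h]
  · rintro rfl
    exact hc

theorem relIn_iff {f x y : M} : RelIn f x y ↔ (Coded.code (x, y) : M) ∈ f := by
  unfold RelIn
  simp only [isOPairIn_iff]
  constructor
  · rintro ⟨z, rfl, h⟩
    exact h
  · intro h
    exact ⟨_, rfl, h⟩

theorem tRelIn_iff {p a b c : M} : TRelIn p a b c ↔ (Coded.code ((a, b), c) : M) ∈ p := by
  unfold TRelIn
  simp only [isOPairIn_iff, relIn_iff]
  constructor
  · rintro ⟨z, rfl, h⟩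
    exact h
  · intro h
    exact ⟨_, rfl, h⟩

theorem isOmegaIn_iff {w : M} : IsOmegaIn w ↔ w = om M := by
  have h1 : ∀ v : M, IsInductiveIn v ↔ IsInductive v := by
    intro v
    constructor
    · rintro ⟨⟨e, h1, h2⟩, h3⟩
      refine ⟨⟨e, h2, h1⟩, fun n hn => ?_⟩
      obtain ⟨s, h4, h5⟩ := h3 n hn
      exact ⟨s, h5, h4⟩
    · rintro ⟨⟨e, h1, h2⟩, h3⟩
      refine ⟨⟨e, h2, h1⟩, fun n hn => ?_⟩
      obtain ⟨s, h4, h5⟩ := h3 n hn
      exact ⟨s, h5, h4⟩
  have h2 : IsOmegaIn w ↔ IsOmega w := by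
    unfold IsOmegaIn IsOmega
    constructor
    · rintro ⟨h3, h4⟩
      exact ⟨(h1 w).1 h3, fun v hv n hn => h4 v ((h1 v).2 hv) n hn⟩
    · rintro ⟨h3, h4⟩
      exact ⟨(h1 w).2 h3, fun v hv n hn => h4 v ((h1 v).1 hv) n hn⟩
  rw [h2]
  constructor
  · intro h
    exact h.unique isOmega_om
  · rintro rfl
    exact isOmega_om

/-! ### Definability -/

variable {Γ : Type} [Coded M Γ]

instance DP.relInB {f g h : Γ → M} [hf : DF M f] [hg : DF M g] [hh : DF M h] :
    DP M (fun γ => RelIn (f γ) (g γ) (h γ)) :=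
  DP.congr (P := fun γ => (Coded.code (g γ, h γ) : M) ∈ f γ) inferInstance
    (fun _ => relIn_iff)

instance DP.tRelInB {f g h k : Γ → M} [hf : DF M f] [hg : DF M g] [hh : DF M h] [hk : DF M k] :
    DP M (fun γ => TRelIn (f γ) (g γ) (h γ) (k γ)) :=
  DP.congr (P := fun γ => (Coded.code ((g γ, h γ), k γ) : M) ∈ f γ) inferInstance
    (fun _ => tRelIn_iff)

theorem DP_subIn : DP M (fun p : M × M => SubIn p.1 p.2) := by
  unfold SubIn
  infer_instance

instance DP.subInB {f g : Γ → M} [hf : DF M f] [hg : DF M g] :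
    DP M (fun γ => SubIn (f γ) (g γ)) :=
  DP.lift₂ (R := fun a b : M => SubIn a b) DP_subIn

instance DP.oPairInB {f g h : Γ → M} [hf : DF M f] [hg : DF M g] [hh : DF M h] :
    DP M (fun γ => IsOPairIn (f γ) (g γ) (h γ)) :=
  DP.congr (P := fun γ => (Coded.code (g γ, h γ) : M) = f γ) inferInstance
    (fun _ => isOPairIn_iff)

theorem DP_funOnIn : DP M (fun p : M × M => IsFunOnIn p.1 p.2) := by
  unfold IsFunOnIn
  infer_instance

instance DP.funOnInB {f g : Γ → M} [hf : DF M f] [hg : DF M g] :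
    DP M (fun γ => IsFunOnIn (f γ) (g γ)) :=
  DP.lift₂ (R := fun a b : M => IsFunOnIn a b) DP_funOnIn

theorem DP_funIntoIn : DP M (fun p : (M × M) × M => IsFunIntoIn p.1.1 p.1.2 p.2) := by
  unfold IsFunIntoIn
  infer_instance

instance DP.funIntoInB {f g h : Γ → M} [hf : DF M f] [hg : DF M g] [hh : DF M h] :
    DP M (fun γ => IsFunIntoIn (f γ) (g γ) (h γ)) :=
  DP.lift₃ (R := fun a b c : M => IsFunIntoIn a b c) DP_funIntoIn

theorem DP_injIntoIn : DP M (fun p : (M × M) × M => IsInjIntoIn p.1.1 p.1.2 p.2) := by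
  unfold IsInjIntoIn
  infer_instance

instance DP.injIntoInB {f g h : Γ → M} [hf : DF M f] [hg : DF M g] [hh : DF M h] :
    DP M (fun γ => IsInjIntoIn (f γ) (g γ) (h γ)) :=
  DP.lift₃ (R := fun a b c : M => IsInjIntoIn a b c) DP_injIntoIn

theorem DP_ctblIn : DP M (fun p : M × M => IsCtblIn p.1 p.2) := by
  unfold IsCtblIn
  infer_instance

instance DP.ctblInB {f g : Γ → M} [hf : DF M f] [hg : DF M g] :
    DP M (fun γ => IsCtblIn (f γ) (g γ)) :=
  DP.lift₂ (R := fun a b : M => IsCtblIn a b) DP_ctblIn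

theorem DP_limPtIn : DP M (fun p : M × M => IsLimPtIn p.1 p.2) := by
  unfold IsLimPtIn
  infer_instance

instance DP.limPtInB {f g : Γ → M} [hf : DF M f] [hg : DF M g] :
    DP M (fun γ => IsLimPtIn (f γ) (g γ)) :=
  DP.lift₂ (R := fun a b : M => IsLimPtIn a b) DP_limPtIn

theorem DP_clubIn : DP M (fun p : M × M => IsClubIn p.1 p.2) := by
  unfold IsClubIn
  infer_instance

instance DP.clubInB {f g : Γ → M} [hf : DF M f] [hg : DF M g] :
    DP M (fun γ => IsClubIn (f γ) (g γ)) :=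
  DP.lift₂ (R := fun a b : M => IsClubIn a b) DP_clubIn

theorem DP_inS21In : DP M (fun p : (M × M) × M => InS21In p.1.1 p.1.2 p.2) := by
  unfold InS21In
  infer_instance

instance DP.inS21InB {f g h : Γ → M} [hf : DF M f] [hg : DF M g] [hh : DF M h] :
    DP M (fun γ => InS21In (f γ) (g γ) (h γ)) :=
  DP.lift₃ (R := fun a b c : M => InS21In a b c) DP_inS21In

theorem DP_ladderIn : DP M (fun p : (M × M) × M => IsLadderIn p.1.1 p.1.2 p.2) := by
  unfold IsLadderIn
  infer_instance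

instance DP.ladderInB {f g h : Γ → M} [hf : DF M f] [hg : DF M g] [hh : DF M h] :
    DP M (fun γ => IsLadderIn (f γ) (g γ) (h γ)) :=
  DP.lift₃ (R := fun a b c : M => IsLadderIn a b c) DP_ladderIn

end

end Pool.Agent.CG3
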