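import Pool.Agent.Lib.MP_99c1f3_lc.CG.O.Base

/-!
# CG3, block O, module Clos: closure points and limit points
-/

set_option autoImplicit false
set_option synthInstance.maxSize 100000
set_option synthInstance.maxHeartbeats 400000

namespace Pool.Agent.CG3

open Pool.Agent.MP_5db68c_lc hiding RelIn
open Pool.Agent.StarRoth.BV Pool.Agent.Lib.MP_6b4821_lc

section

variable {M : Type} [Membership M M] [hM : IsZF M] {o : M}

/-- Every sequence of elements of the ordinal `o` is bounded. -/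
def RegO (o : M) : Prop := ∀ F : N M → El o, DF M F → ∃ b : El o, ∀ n, (F n).1 ∈ b.1

/-- (CLO1) Closure points of an increasing function.

Proof. `exists_rec` gives `s : N M → El o`, `DF M s`, `s 0 = F β`, `s (n + 1) = F (s n)`. `RegO`
gives an upper bound `b` (`∀ n, s n ∈ b`); take the least one (`Ordl.exists_least`). `β ∈ s 0 ∈ b`.
If `α ∈ b` then `α` is no upper bound: some `s n ∉ α`, so `α = s n` or `α ∈ s n` (`Ordl.tri`), so
`α ∈ s (n + 1) =: α'`, `F α' = s (n + 2) ∈ b`. -/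
theorem exists_closure (ho : Ordl o) (hr : RegO o) (F : El o → El o) (hF : DF M F)
    (hlt : ∀ x, x.1 ∈ (F x).1) (β : El o) : ∃ b : El o, β.1 ∈ b.1 ∧
      ∀ α : El o, α.1 ∈ b.1 → ∃ α' : El o, α'.1 ∈ b.1 ∧ α.1 ∈ α'.1 ∧ (F α').1 ∈ b.1 := by
  obtain ⟨s, hs, h0, h1⟩ := exists_rec (M := M) (Γ := El o) (F β) F hF
  have hs' := @hs.lift₁
  obtain ⟨b0, hb0⟩ := hr s hs
  obtain ⟨b, hb, hmin⟩ := ho.exists_least (fun b : El o => ∀ n : N M, (s n).1 ∈ b.1)
    inferInstance ⟨b0, hb0⟩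
  refine ⟨b, ?_, fun α hα => ?_⟩
  · refine ho.trans' _ _ _ b.2 (hb N.zero) ?_
    rw [h0]
    exact hlt β
  · have hex : ∃ n, ¬ (s n).1 ∈ α.1 := by
      by_contra hc
      push Not at hc
      rcases hmin α hc with h | h
      · rw [h] at hα
        exact N.no_cycle _ _ hα hα
      · exact N.no_cycle _ _ h hα
    obtain ⟨n, hn⟩ := hex
    have h2 : (s n).1 ∈ (s (N.succ n)).1 := by
      rw [h1]
      exact hlt _
    have h3 : α.1 ∈ (s (N.succ n)).1 := by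
      rcases ho.tri (s n) α with h | h | h
      · exact (hn h).elim
      · rw [← h]
        exact h2
      · exact ho.trans' _ _ _ (s (N.succ n)).2 h2 h
    refine ⟨s (N.succ n), hb _, h3, ?_⟩
    rw [← h1]
    exact hb _

/-- (CLO2) Limit points of an unbounded definable set of elements of `o`.

Proof. For `α : El o` there is `ν` with `α ∈ ν`, `β ∈ ν`, `A ν` (take the larger of `α`, `β`,
`Ordl.tri`); let `F α` be the least such `ν` (`Ordl.exists_least`; `DF M F` by `DF.of_rel`, the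
least element is unique). (CLO1) for `F`. -/
theorem exists_limPt (ho : Ordl o) (hr : RegO o) (A : El o → Prop) (hA : DP M A)
    (hunb : ∀ β : El o, ∃ ν : El o, β.1 ∈ ν.1 ∧ A ν) (β : El o) : ∃ b : El o, β.1 ∈ b.1 ∧
      ∀ α : El o, α.1 ∈ b.1 → ∃ ν : El o, ν.1 ∈ b.1 ∧ α.1 ∈ ν.1 ∧ β.1 ∈ ν.1 ∧ A ν := by
  have hA' := @hA.lift₁
  have hex : ∀ α : El o, ∃ ν : El o, α.1 ∈ ν.1 ∧ β.1 ∈ ν.1 ∧ A ν := by
    intro α
    rcases ho.tri α β with h | h | h
    · obtain ⟨ν, h1, h2⟩ := hunb β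
      exact ⟨ν, ho.trans' _ _ _ ν.2 h1 h, h1, h2⟩
    · obtain ⟨ν, h1, h2⟩ := hunb β
      rw [h]
      exact ⟨ν, h1, h1, h2⟩
    · obtain ⟨ν, h1, h2⟩ := hunb α
      exact ⟨ν, h1, ho.trans' _ _ _ ν.2 h1 h, h2⟩
  have hex' : ∀ α : El o, ∃ ν : El o, (α.1 ∈ ν.1 ∧ β.1 ∈ ν.1 ∧ A ν) ∧
      ∀ j : El o, (α.1 ∈ j.1 ∧ β.1 ∈ j.1 ∧ A j) → ν = j ∨ ν.1 ∈ j.1 := by
    intro α
    exact ho.exists_least (fun ν : El o => α.1 ∈ ν.1 ∧ β.1 ∈ ν.1 ∧ A ν) inferInstance (hex α)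
  choose F hF using hex'
  have hDF : DF M F := by
    refine DF.of_rel (M := M)
      (R := fun (α ν : El o) => (α.1 ∈ ν.1 ∧ β.1 ∈ ν.1 ∧ A ν) ∧
        ∀ j : El o, (α.1 ∈ j.1 ∧ β.1 ∈ j.1 ∧ A j) → ν = j ∨ ν.1 ∈ j.1)
      inferInstance hF ?_
    intro α x y hx hy
    rcases hx.2 y hy.1 with h | h
    · exact h
    · rcases hy.2 x hx.1 with h' | h'
      · exact h'.symm
      · exact (N.no_cycle _ _ h h').elim
  obtain ⟨b, hb, hb'⟩ := exists_closure ho hr F hDF (fun x => (hF x).1.1) β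
  refine ⟨b, hb, fun α hα => ?_⟩
  obtain ⟨α', h1, h2, h3⟩ := hb' α hα
  exact ⟨F α', h3, ho.trans' _ _ _ (F α').2 (hF α').1.1 h2, (hF α').1.2.1, (hF α').1.2.2⟩

end

end Pool.Agent.CG3
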