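import Pool.Agent.Lib.MP_99c1f3_lc.CG.O.Base

/-!
# CG3, block O, module Fun: functions and injections of the model
-/

set_option autoImplicit false
set_option synthInstance.maxSize 100000
set_option synthInstance.maxHeartbeats 400000

namespace Pool.Agent.CG3

open Pool.Agent.MP_5db68c_lc hiding RelIn
open Pool.Agent.StarRoth.BV Pool.Agent.Lib.MP_6b4821_lc

section

variable {M : Type} [Membership M M] [hM : IsZF M] {f a b c : M}

/-- (FUN1) A function of the model, as a definable function of the types of members.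

Proof. `choose` the value: for `x : El a` some `y` has `RelIn f x y` (`IsFunOnIn`), and `y ∈ b`.
`DF.of_rel` with `R x y := RelIn f x.1 y.1` (functional by `IsFunOnIn`). If `RelIn f x y` then the
pair `z ∈ f` is a pair `(x', y')` with `x' ∈ a`, so `x = x'` (`isOPairIn_iff`, `Coded.inj`). -/
theorem exists_of_funInto (h : IsFunIntoIn f a b) : ∃ F : El a → El b, DF M F ∧
    ∀ x y : M, RelIn f x y ↔ ∃ (hx : x ∈ a) (hy : y ∈ b), F ⟨x, hx⟩ = ⟨y, hy⟩ := by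
  obtain ⟨⟨h1, h2, h3⟩, h4⟩ := h
  have h5 : ∀ x y : M, RelIn f x y → x ∈ a := by
    rintro x y ⟨z, hz, hzf⟩
    obtain ⟨x', y', hx', hz'⟩ := h1 z hzf
    have e : (x, y) = (x', y') :=
      Coded.inj (M := M) ((isOPairIn_iff.1 hz).trans (isOPairIn_iff.1 hz').symm)
    have e1 : x = x' := congrArg Prod.fst e
    rw [e1]
    exact hx'
  have h6 : ∀ x : El a, ∃ y : El b, RelIn f x.1 y.1 := fun x => by
    obtain ⟨y, hy⟩ := h2 x.1 x.2
    exact ⟨⟨y, h4 _ _ hy⟩, hy⟩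
  choose F hF using h6
  refine ⟨F, DF.of_rel (R := fun (x : El a) (y : El b) => RelIn f x.1 y.1) inferInstance hF
    (fun x y y' h h' => Subtype.ext (h3 _ _ _ ⟨h, h'⟩)), fun x y =>
      ⟨fun h => ⟨h5 x y h, h4 x y h, Subtype.ext (h3 _ _ _ ⟨hF ⟨x, h5 x y h⟩, h⟩)⟩, ?_⟩⟩
  rintro ⟨hx, hy, e⟩
  have h7 := hF ⟨x, hx⟩
  rw [e] at h7
  exact h7

/-- (FUN2) A definable function of the types of members is a function of the model.

Proof. `exists_subset (Γ := El a × El b) (fun p => F p.1 = p.2)` (`DF.iff_graph`), `relIn_iff`,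
`isOPairIn_iff`. -/
theorem funInto_of (F : El a → El b) (hF : DF M F) : ∃ f : M, IsFunIntoIn f a b ∧
    ∀ x y : M, RelIn f x y ↔ ∃ (hx : x ∈ a) (hy : y ∈ b), F ⟨x, hx⟩ = ⟨y, hy⟩ := by
  obtain ⟨f, hf⟩ := exists_subset (M := M) (Γ := El a × El b) (fun p => F p.1 = p.2)
    (DF.iff_graph.1 hF)
  have h : ∀ x y : M, RelIn f x y ↔ ∃ (hx : x ∈ a) (hy : y ∈ b), F ⟨x, hx⟩ = ⟨y, hy⟩ := by
    intro x y
    rw [relIn_iff, hf]
    constructor
    · rintro ⟨⟨u, v⟩, h1, h2⟩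
      have h3 : (u.1, v.1) = (x, y) := Coded.inj (M := M) h1
      have e1 : u.1 = x := congrArg Prod.fst h3
      have e2 : v.1 = y := congrArg Prod.snd h3
      subst e1
      subst e2
      exact ⟨u.2, v.2, h2⟩
    · rintro ⟨hx, hy, e⟩
      exact ⟨(⟨x, hx⟩, ⟨y, hy⟩), rfl, e⟩
  refine ⟨f, ⟨⟨?_, ?_, ?_⟩, ?_⟩, h⟩
  · intro z hz
    obtain ⟨⟨u, v⟩, h1, h2⟩ := (hf z).1 hz
    exact ⟨u.1, v.1, u.2, isOPairIn_iff.2 h1⟩
  · intro x hx
    exact ⟨(F ⟨x, hx⟩).1, (h _ _).2 ⟨hx, (F ⟨x, hx⟩).2, rfl⟩⟩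
  · rintro x y y' ⟨h1, h2⟩
    obtain ⟨hx, hy, e⟩ := (h _ _).1 h1
    obtain ⟨hx', hy', e'⟩ := (h _ _).1 h2
    exact congrArg Subtype.val (e.symm.trans e')
  · intro x y h1
    obtain ⟨_, hy, _⟩ := (h _ _).1 h1
    exact hy

/-- (FUN3) Proof. (FUN1), (FUN2). -/
theorem cardLeIn_iff : CardLeIn a b ↔ ∃ F : El a → El b, DF M F ∧ Function.Injective F := by
  constructor
  · rintro ⟨f, h1, h2, h3⟩
    obtain ⟨F, hF, h⟩ := exists_of_funInto (f := f) ⟨h1, h2⟩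
    refine ⟨F, hF, fun x x' e => ?_⟩
    exact Subtype.ext (h3 x.1 x'.1 (F x).1 ⟨(h _ _).2 ⟨x.2, (F x).2, rfl⟩,
      (h _ _).2 ⟨x'.2, (F x).2, e.symm⟩⟩)
  · rintro ⟨F, hF, hi⟩
    obtain ⟨f, h1, h⟩ := funInto_of F hF
    refine ⟨f, h1.1, h1.2, ?_⟩
    rintro x x' y ⟨h2, h3⟩
    obtain ⟨hx, hy, e⟩ := (h _ _).1 h2
    obtain ⟨hx', hy', e'⟩ := (h _ _).1 h3
    exact congrArg Subtype.val (hi (e.trans e'.symm))

/-- (FUN4) Proof. The inclusion: `DF.of_rel` with `R x y := x.1 = y.1`. -/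
theorem cardLeIn_of_sub (h : ∀ x : M, x ∈ a → x ∈ b) : CardLeIn a b := by
  refine cardLeIn_iff.2 ⟨fun x => ⟨x.1, h _ x.2⟩, DF.of_rel
    (R := fun (x : El a) (y : El b) => x.1 = y.1) inferInstance (fun _ => rfl) ?_, ?_⟩
  · intro x y y' h1 h2
    exact Subtype.ext (h1.symm.trans h2)
  · intro x y e
    have e' : x.1 = y.1 := congrArg (fun z : El b => z.1) e
    exact Subtype.ext e'

/-- (FUN5) -/
theorem cardLeIn_trans (h : CardLeIn a b) (h' : CardLeIn b c) : CardLeIn a c := by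
  obtain ⟨F, hF, hFi⟩ := cardLeIn_iff.1 h
  obtain ⟨G, hG, hGi⟩ := cardLeIn_iff.1 h'
  exact cardLeIn_iff.2 ⟨fun x => G (F x), DF.comp hG hF, hGi.comp hFi⟩

/-- (FUN6) The functions from `a` to `b` are the elements of a set.

Proof. `exists_subset (Γ := El a × El b) (fun _ => True)` and its power set; every element `z` of
such a function is the code of a pair `(x, y)`, `x ∈ a`, `y ∈ b`. -/
theorem exists_funSet (a b : M) : ∃ B : M, ∀ f : M, IsFunIntoIn f a b → f ∈ B := by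
  obtain ⟨S, hS⟩ := exists_subset (M := M) (Γ := El a × El b) (fun _ => True) inferInstance
  obtain ⟨Q, hQ⟩ := hM.zf.powerset S
  refine ⟨Q, fun f hf => (hQ f).2 fun z hz => (hS z).2 ?_⟩
  obtain ⟨x, y, hx, hz'⟩ := hf.1.1 z hz
  have hy : y ∈ b := hf.2 x y ⟨z, hz', hz⟩
  exact ⟨(⟨x, hx⟩, ⟨y, hy⟩), isOPairIn_iff.1 hz', trivial⟩

end

section

variable {M : Type} [Membership M M] [hM : IsZFC M] {a b : M}

/-- (FUN7) Proof. `exists_choice`, (FUN3). -/
theorem cardLeIn_of_rel (R : El a → El b → Prop) (hR : DP M (fun p : El a × El b => R p.1 p.2))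
    (h : ∀ x, ∃ y, R x y) (hinj : ∀ x x' y, R x y → R x' y → x = x') : CardLeIn a b := by
  obtain ⟨f, hf, hr⟩ := exists_choice (M := M) R hR h
  refine cardLeIn_iff.2 ⟨f, hf, fun x x' e => hinj x x' (f x) (hr x) ?_⟩
  rw [e]
  exact hr x'

/-- (FUN8) Choice for a definable relation with values in a set `B`.

Proof. `exists_choice` with `Δ = El B`; compose with `Subtype.val` (`DF.val`). -/
theorem exists_choice_set {Γ : Type} [Coded M Γ] [SetCoded M Γ] (R : Γ → M → Prop)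
    (hR : DP M (fun p : Γ × M => R p.1 p.2)) (B : M) (h : ∀ x, ∃ y, y ∈ B ∧ R x y) :
    ∃ f : Γ → M, DF M f ∧ ∀ x, R x (f x) := by
  obtain ⟨f, hf, hr⟩ := exists_choice (M := M) (Δ := El B) (fun x y => R x y.1)
    (DP.app₂ (M := M) (Γ := Γ × El B) hR (f := fun p => p.1) (g := fun p => p.2.1)
      inferInstance inferInstance) (fun x => by
        obtain ⟨y, hy, h⟩ := h x
        exact ⟨⟨y, hy⟩, h⟩)
  exact ⟨fun x => (f x).1, inferInstance, hr⟩

end

end Pool.Agent.CG3
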