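import Pool.Agent.Lib.MP_99c1f3_lc.CG.O.Fun

/-!
# CG3, block O, module Ord: ordinals and successor cardinals of the model
-/

set_option autoImplicit false
set_option synthInstance.maxSize 100000
set_option synthInstance.maxHeartbeats 400000

namespace Pool.Agent.CG3

open Pool.Agent.MP_5db68c_lc hiding RelIn
open Pool.Agent.StarRoth.BV Pool.Agent.Lib.MP_6b4821_lc

section

variable {M : Type} [Membership M M] [hM : IsZF M] {a b o o' o'' κ l : M}

/-- (ORD1) `IsOrdIn` and `Ordl` are the same. -/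
theorem isOrdIn_iff : IsOrdIn a ↔ Ordl a := by
  constructor
  · intro h
    exact ⟨fun x y hx hy => h.1 x hx y hy, fun x y z hx hy hz => h.2 x hx y hy z hz⟩
  · intro h
    exact ⟨fun x hx y hy => h.trans x y hx hy, fun x hx y hy z hz => h.trans' x y z hx hy hz⟩

/-- (ORD2) Elements of ordinals are ordinals. -/
theorem ordl_of_mem (h : Ordl a) (hb : b ∈ a) : Ordl b := by
  refine ⟨fun x y hx hy => h.trans' b x y hb hx hy, fun x y z hx hy hz => ?_⟩
  exact h.trans' x y z (h.trans b x hb hx) hy hz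

/-- (ORD3) Proof. `foundation` for the singleton, or `N.no_cycle`. -/
theorem not_mem_self (a : M) : a ∉ a := fun h => N.no_cycle a a h h

/-- (ORD4) A transitive subset `c` of an ordinal `a` is an element of `a` or equal to `a`.

Proof. Otherwise `exists_el_subset` gives the set `a \ c`; let `x` be an `∈`-minimal element
(`foundation`, `hM.zf.foundation`). Then `x ⊆ c` (`a` is transitive). And `c ⊆ x`: for `y ∈ c`,
`Ordl.tri` in `a`: `y = x` or `x ∈ y` would give `x ∈ c`. So `c = x ∈ a` (`ext'`). -/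
theorem mem_of_trans (ha : Ordl a) {c : M} (hc : ∀ x : M, x ∈ c → x ∈ a)
    (hc' : ∀ x y : M, x ∈ c → y ∈ x → y ∈ c) : c ∈ a ∨ c = a := by
  obtain ⟨b, hb⟩ := exists_el_subset (a := a) (fun i : El a => i.1 ∉ c) inferInstance
  by_cases h0 : ∃ x : M, x ∈ b
  · left
    obtain ⟨x, hx, hmin⟩ := hM.zf.foundation b h0
    obtain ⟨hxa, hxc⟩ := (hb x).1 hx
    have h1 : c = x := by
      apply ext'
      intro y
      constructor
      · intro hy
        rcases Ordl.tri ha ⟨y, hc y hy⟩ ⟨x, hxa⟩ with h | h | h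
        · exact h
        · have h2 : y = x := congrArg Subtype.val h
          exact absurd (h2 ▸ hy) hxc
        · exact absurd (hc' y x hy h) hxc
      · intro hy
        by_contra hyc
        exact hmin y hy ((hb y).2 ⟨ha.trans x y hxa hy, hyc⟩)
    rw [h1]
    exact hxa
  · right
    apply ext'
    intro y
    refine ⟨hc y, fun hy => ?_⟩
    by_contra hyc
    exact h0 ⟨y, (hb y).2 ⟨hy, hyc⟩⟩

/-- (ORD5) Any two ordinals are comparable.

Proof. (ORD4) for `c = a ∩ b` (`exists_el_subset`) as a subset of `a` and as a subset of `b`;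
`c ∈ a` and `c ∈ b` would give `c ∈ c` (ORD3). -/
theorem ord_tri (ha : Ordl a) (hb : Ordl b) : a ∈ b ∨ a = b ∨ b ∈ a := by
  obtain ⟨c, hc⟩ := exists_el_subset (a := a) (fun i : El a => i.1 ∈ b) inferInstance
  have hca : ∀ x : M, x ∈ c → x ∈ a := fun x hx => ((hc x).1 hx).1
  have hcb : ∀ x : M, x ∈ c → x ∈ b := fun x hx => ((hc x).1 hx).2
  have hct : ∀ x y : M, x ∈ c → y ∈ x → y ∈ c := fun x y hx hy =>
    (hc y).2 ⟨ha.trans x y (hca x hx) hy, hb.trans x y (hcb x hx) hy⟩
  rcases mem_of_trans ha hca hct with h1 | h1 <;> rcases mem_of_trans hb hcb hct with h2 | h2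
  · exact absurd ((hc c).2 ⟨h1, h2⟩) (not_mem_self c)
  · right; right
    rw [← h2]
    exact h1
  · left
    rw [← h1]
    exact h2
  · right; left
    rw [← h1, ← h2]

/-- (ORD6) Successor cardinals are unique.

Proof. (ORD5): `o' ∈ o''` gives `CardLeIn o' o`. -/
theorem IsSuccCardIn.unique (h : IsSuccCardIn o' o) (h' : IsSuccCardIn o'' o) : o' = o'' := by
  rcases ord_tri (isOrdIn_iff.1 h.1) (isOrdIn_iff.1 h'.1) with h1 | h1 | h1
  · exact absurd (h'.2.2 o' h1) h.2.1
  · exact h1
  · exact absurd (h.2.2 o'' h1) h'.2.1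

/-- (ORD7) Proof. (ORD5): `o' = o` or `o' ∈ o` would give `o' ⊆ o`, so `CardLeIn o' o`. -/
theorem IsSuccCardIn.mem (ho : Ordl o) (h : IsSuccCardIn o' o) : o ∈ o' := by
  rcases ord_tri ho (isOrdIn_iff.1 h.1) with h1 | h1 | h1
  · exact h1
  · exact absurd (cardLeIn_of_sub fun x hx => by rw [h1]; exact hx) h.2.1
  · exact absurd (cardLeIn_of_sub fun x hx => ho.trans o' x h1 hx) h.2.1

end

end Pool.Agent.CG3
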