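import Pool.Agent.Lib.MP_99c1f3_lc.CG.O.Ord

/-!
# CG3, block O, module Reg: the first uncountable cardinal is regular
-/

set_option autoImplicit false
set_option synthInstance.maxSize 100000
set_option synthInstance.maxHeartbeats 400000

namespace Pool.Agent.CG3

open Pool.Agent.MP_5db68c_lc hiding RelIn
open Pool.Agent.StarRoth.BV Pool.Agent.Lib.MP_6b4821_lc

variable {M : Type} [Membership M M] [hM : IsZFC M] {o p : M}

/-- (REG) Every sequence of elements of `ω₁` is bounded.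

Proof. Suppose not: for every `b : El o` there is `n` with `(F n).1 ∉ b.1`, so `b.1 = (F n).1` or
`b.1 ∈ (F n).1` (`Ordl.tri`). For every `n : N M` there is a function `g` of the model which is an
injection from `(F n).1` into `om M` (`IsSuccCardIn`: `CardLeIn (F n).1 (om M)`; it is a function
into `om M` on `(F n).1`, and these `g` are subsets of the product of `o` and `om M`, whose power
set is the `B` of `exists_choice_set`). Choose `g : N M → M`, `DF M g`, `IsInjIntoIn (g n) (F n).1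
(om M)` (`exists_choice_set` with `Γ = N M`). Then `cardLeIn_of_rel` with
`R (b : El o) (z : N M) := ∃ n : N M, (b.1 = (F n).1 ∨ b.1 ∈ (F n).1) ∧
  (∀ m : N M, (b.1 = (F m).1 ∨ b.1 ∈ (F m).1) → n = m ∨ n.1 ∈ m.1) ∧
  ((b.1 = (F n).1 ∧ TRelIn p n.1 N.zero.1 z.1) ∨
   ∃ k : N M, RelIn (g n) b.1 k.1 ∧ TRelIn p n.1 (N.succ k).1 z.1)`
(least `n` by `ordl_om.exists_least`; total by `IsPairingIn`; injective: the same `z` gives the same
`n` and `0 ≠ succ k`, `N.succ_inj`, `g n` injective). So `CardLeIn o (om M)`, a contradiction. -/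
theorem reg (ho : IsSuccCardIn o (om M)) (hp : IsPairingIn p (om M)) (F : N M → El o)
    (hF : DF M F) : ∃ b : El o, ∀ n, (F n).1 ∈ b.1 := by
  by_contra hno
  push Not at hno
  have hoO : Ordl o := isOrdIn_iff.1 ho.1
  have hF' := @hF.lift₁
  have htot : ∀ b : El o, ∃ n : N M, b.1 = (F n).1 ∨ b.1 ∈ (F n).1 := by
    intro b
    obtain ⟨n, hn⟩ := hno b
    refine ⟨n, ?_⟩
    rcases hoO.tri b (F n) with h | h | h
    · exact Or.inr h
    · exact Or.inl (congrArg Subtype.val h)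
    · exact absurd h hn
  obtain ⟨S0, hS0⟩ := exists_subset (M := M) (Γ := El o × N M) (fun _ => True) inferInstance
  obtain ⟨B, hB⟩ := (IsZF.zf (M := M)).powerset S0
  obtain ⟨g, hg, hgi⟩ := exists_choice_set (M := M) (Γ := N M)
    (fun n f => IsInjIntoIn f (F n).1 (om M)) inferInstance B (by
      intro n
      obtain ⟨f, hf⟩ := ho.2.2 (F n).1 (F n).2
      refine ⟨f, (hB f).2 fun z hz => ?_, hf⟩
      obtain ⟨x, y, hx, hxy⟩ := hf.1.1 z hz
      rw [isOPairIn_iff] at hxy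
      have hy : y ∈ om M := hf.2.1 x y (relIn_iff.2 (by rw [hxy]; exact hz))
      exact (hS0 z).2 ⟨(⟨x, hoO.trans _ _ (F n).2 hx⟩, ⟨y, hy⟩), hxy, trivial⟩)
  have hg' := @hg.lift₁
  apply ho.2.1
  refine cardLeIn_of_rel (fun (b : El o) (z : N M) => ∃ n : N M,
    ((b.1 = (F n).1 ∨ b.1 ∈ (F n).1) ∧
      ∀ m : N M, (b.1 = (F m).1 ∨ b.1 ∈ (F m).1) → n = m ∨ n.1 ∈ m.1) ∧
    ((b.1 = (F n).1 ∧ TRelIn p n.1 (N.zero : N M).1 z.1) ∨
      ∃ k : N M, RelIn (g n) b.1 k.1 ∧ TRelIn p n.1 (N.succ k).1 z.1)) inferInstance ?_ ?_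
  · intro b
    obtain ⟨n, hn, hmin⟩ := ordl_om.exists_least
      (fun n : N M => b.1 = (F n).1 ∨ b.1 ∈ (F n).1) inferInstance (htot b)
    rcases hn with h | h
    · obtain ⟨c, hc, hc'⟩ := hp.1 n.1 (N.zero : N M).1 ⟨n.2, (N.zero : N M).2⟩
      exact ⟨⟨c, hc⟩, n, ⟨Or.inl h, hmin⟩, Or.inl ⟨h, hc'⟩⟩
    · obtain ⟨k, hk⟩ := (hgi n).1.2.1 b.1 h
      have hkw : k ∈ om M := (hgi n).2.1 b.1 k hk
      obtain ⟨c, hc, hc'⟩ := hp.1 n.1 (N.succ ⟨k, hkw⟩).1 ⟨n.2, (N.succ ⟨k, hkw⟩).2⟩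
      exact ⟨⟨c, hc⟩, n, ⟨Or.inr h, hmin⟩, Or.inr ⟨⟨k, hkw⟩, hk, hc'⟩⟩
  · rintro x x' z ⟨n, _, h⟩ ⟨n', _, h'⟩
    rcases h with ⟨h1, h2⟩ | ⟨k, h1, h2⟩ <;> rcases h' with ⟨h3, h4⟩ | ⟨k', h3, h4⟩
    · have e : n = n' := Subtype.ext (hp.2 _ _ _ _ _ ⟨h2, h4⟩).1
      subst e
      exact Subtype.ext (h1.trans h3.symm)
    · exact absurd (Subtype.ext (hp.2 _ _ _ _ _ ⟨h2, h4⟩).2.symm) (N.succ_ne_zero k')
    · exact absurd (Subtype.ext (hp.2 _ _ _ _ _ ⟨h2, h4⟩).2) (N.succ_ne_zero k)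
    · have e : n = n' := Subtype.ext (hp.2 _ _ _ _ _ ⟨h2, h4⟩).1
      have e' : k = k' := N.succ_inj (Subtype.ext (hp.2 _ _ _ _ _ ⟨h2, h4⟩).2)
      subst e
      subst e'
      exact Subtype.ext ((hgi n).2.2 _ _ _ ⟨h1, h3⟩)

end Pool.Agent.CG3
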