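import Pool.Agent.Lib.MP_99c1f3_lc.CG.O.Base

/-!
# CG3, block O, module Up1: absoluteness for transitive submodels
-/

set_option autoImplicit false
set_option synthInstance.maxSize 100000
set_option synthInstance.maxHeartbeats 400000

namespace Pool.Agent.CG3

open Pool.Agent.MP_5db68c_lc hiding RelIn
open Pool.Agent.StarRoth.BV Pool.Agent.Lib.MP_6b4821_lc

section

variable {M N : Type} [Membership M M] [Membership N N] [hM : IsZF M] [hN : IsZF N] {j : M → N}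

/-- (UP1) Proof. Extensionality in `M` (`ext'`): if `j x = j y` then `z ∈ x ↔ j z ∈ j x ↔ z ∈ y`. -/
theorem IsTransEmb.inj (hj : IsTransEmb j) : Function.Injective j := by
  intro x y h
  exact ext' fun z => by rw [← hj.mem_iff, h, hj.mem_iff]

/-- (UP2) -/
theorem IsTransEmb.mem (hj : IsTransEmb j) {x : M} {z : N} :
    z ∈ j x ↔ ∃ y : M, y ∈ x ∧ j y = z := by
  constructor
  · intro h
    obtain ⟨y, rfl⟩ := hj.trans x z h
    exact ⟨y, (hj.mem_iff y x).1 h, rfl⟩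
  · rintro ⟨y, h, rfl⟩
    exact (hj.mem_iff y x).2 h

/-- (UP3) -/
theorem IsTransEmb.subIn (hj : IsTransEmb j) {x y : M} : SubIn (j x) (j y) ↔ SubIn x y := by
  constructor
  · intro h z hz
    exact (hj.mem_iff z y).1 (h _ ((hj.mem_iff z x).2 hz))
  · intro h z hz
    obtain ⟨t, ht, rfl⟩ := hj.mem.1 hz
    exact (hj.mem_iff t y).2 (h t ht)

theorem IsTransEmb.Up1_upair (hj : IsTransEmb j) {z x y : M} (h : IsUPairIn z x y) :
    IsUPairIn (j z) (j x) (j y) := by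
  intro t
  rw [hj.mem]
  constructor
  · rintro ⟨u, hu, rfl⟩
    rcases (h u).1 hu with rfl | rfl
    · exact Or.inl rfl
    · exact Or.inr rfl
  · rintro (rfl | rfl)
    · exact ⟨x, (h x).2 (Or.inl rfl), rfl⟩
    · exact ⟨y, (h y).2 (Or.inr rfl), rfl⟩

/-- (UP4) Pairs are absolute.

Proof. `IsOPairIn (Coded.code (x, y)) x y` in `M` (`isOPairIn_iff`), that is, there are `a = {x}`,
`b = {x, y}` with `code (x, y) = {a, b}`; apply `j` (`IsTransEmb.mem`), `isOPairIn_iff`. -/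
theorem IsTransEmb.code (hj : IsTransEmb j) (x y : M) :
    j (Coded.code (x, y) : M) = (Coded.code (j x, j y) : N) := by
  symm
  rw [← isOPairIn_iff]
  obtain ⟨a, b, ha, hb, hz⟩ := isOPairIn_iff.2 (rfl : (Coded.code (x, y) : M) = _)
  exact ⟨j a, j b, hj.Up1_upair ha, hj.Up1_upair hb, hj.Up1_upair hz⟩

theorem IsTransEmb.Up1_inv (hj : IsTransEmb j) {u : M} {x y : N}
    (h : j u = (Coded.code (x, y) : N)) :
    ∃ x' y' : M, j x' = x ∧ j y' = y ∧ u = (Coded.code (x', y') : M) := by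
  obtain ⟨a, b, ha, hb, hz⟩ := isOPairIn_iff.2 (rfl : (Coded.code (x, y) : N) = _)
  rw [← h] at hz
  obtain ⟨a', -, rfl⟩ := hj.mem.1 ((hz a).2 (Or.inl rfl))
  obtain ⟨b', -, rfl⟩ := hj.mem.1 ((hz b).2 (Or.inr rfl))
  obtain ⟨x', -, rfl⟩ := hj.mem.1 ((ha x).2 (Or.inl rfl))
  obtain ⟨y', -, rfl⟩ := hj.mem.1 ((hb y).2 (Or.inr rfl))
  refine ⟨x', y', rfl, rfl, hj.inj ?_⟩
  rw [h, hj.code]

/-- (UP5) Proof. `relIn_iff`; (UP4); if `code (x, y) ∈ j f` then it is `j z`, `z ∈ f`, and `x`, `y`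
are elements of elements of `j z` (`isOPairIn_iff`), so `x = j x'`, `y = j y'` and
`z = code (x', y')` by (UP1), (UP4). -/
theorem IsTransEmb.relIn (hj : IsTransEmb j) {f : M} {x y : N} :
    RelIn (j f) x y ↔ ∃ x' y' : M, j x' = x ∧ j y' = y ∧ RelIn f x' y' := by
  rw [relIn_iff]
  constructor
  · intro h
    obtain ⟨u, hu, hu'⟩ := hj.mem.1 h
    obtain ⟨x', y', hx, hy, rfl⟩ := hj.Up1_inv hu'
    exact ⟨x', y', hx, hy, relIn_iff.2 hu⟩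
  · rintro ⟨x', y', rfl, rfl, h⟩
    rw [← hj.code]
    exact (hj.mem_iff _ _).2 (relIn_iff.1 h)

/-- (UP6) -/
theorem IsTransEmb.relIn' (hj : IsTransEmb j) {f x y : M} :
    RelIn (j f) (j x) (j y) ↔ RelIn f x y := by
  rw [hj.relIn]
  constructor
  · rintro ⟨x', y', hx, hy, h⟩
    rw [hj.inj hx, hj.inj hy] at h
    exact h
  · intro h
    exact ⟨x, y, rfl, rfl, h⟩

/-- (UP7) Proof. As (UP5), with `tRelIn_iff`. -/
theorem IsTransEmb.tRelIn (hj : IsTransEmb j) {f : M} {x y z : N} :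
    TRelIn (j f) x y z ↔ ∃ x' y' z' : M, j x' = x ∧ j y' = y ∧ j z' = z ∧ TRelIn f x' y' z' := by
  have e1 : ∀ {g a b c : N}, TRelIn g a b c ↔ RelIn g (Coded.code (a, b) : N) c := by
    intro g a b c
    rw [tRelIn_iff, relIn_iff]
    exact Iff.rfl
  have e2 : ∀ {g a b c : M}, TRelIn g a b c ↔ RelIn g (Coded.code (a, b) : M) c := by
    intro g a b c
    rw [tRelIn_iff, relIn_iff]
    exact Iff.rfl
  rw [e1, hj.relIn]
  constructor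
  · rintro ⟨u, z', hu, hz, h⟩
    obtain ⟨x', y', hx, hy, rfl⟩ := hj.Up1_inv hu
    exact ⟨x', y', z', hx, hy, hz, e2.2 h⟩
  · rintro ⟨x', y', z', rfl, rfl, rfl, h⟩
    exact ⟨_, z', hj.code x' y', rfl, e2.1 h⟩

/-- (UP8) -/
theorem IsTransEmb.limPt (hj : IsTransEmb j) {γ D : M} :
    IsLimPtIn (j γ) (j D) ↔ IsLimPtIn γ D := by
  constructor
  · rintro ⟨⟨α, hα⟩, h⟩
    obtain ⟨α', hα', -⟩ := hj.mem.1 hα
    refine ⟨⟨α', hα'⟩, fun a ha => ?_⟩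
    obtain ⟨β, h1, h2, h3⟩ := h (j a) ((hj.mem_iff _ _).2 ha)
    obtain ⟨b, hb, rfl⟩ := hj.mem.1 h1
    exact ⟨b, hb, (hj.mem_iff _ _).1 h2, (hj.mem_iff _ _).1 h3⟩
  · rintro ⟨⟨α, hα⟩, h⟩
    refine ⟨⟨j α, (hj.mem_iff _ _).2 hα⟩, fun a ha => ?_⟩
    obtain ⟨a', ha', rfl⟩ := hj.mem.1 ha
    obtain ⟨b, h1, h2, h3⟩ := h a' ha'
    exact ⟨j b, (hj.mem_iff _ _).2 h1, (hj.mem_iff _ _).2 h2, (hj.mem_iff _ _).2 h3⟩

/-- (UP9) -/
theorem IsTransEmb.funOn (hj : IsTransEmb j) {f d : M} (h : IsFunOnIn f d) :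
    IsFunOnIn (j f) (j d) := by
  obtain ⟨h1, h2, h3⟩ := h
  refine ⟨fun z hz => ?_, fun x hx => ?_, ?_⟩
  · obtain ⟨z', hz', rfl⟩ := hj.mem.1 hz
    obtain ⟨x, y, hx, hp⟩ := h1 z' hz'
    refine ⟨j x, j y, (hj.mem_iff _ _).2 hx, isOPairIn_iff.2 ?_⟩
    rw [← isOPairIn_iff.1 hp, hj.code]
  · obtain ⟨x', hx', rfl⟩ := hj.mem.1 hx
    obtain ⟨y, hy⟩ := h2 x' hx'
    exact ⟨j y, hj.relIn'.2 hy⟩
  · rintro x y y' ⟨h4, h5⟩
    obtain ⟨a, b, rfl, rfl, h6⟩ := hj.relIn.1 h4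
    obtain ⟨a', b', h7, rfl, h8⟩ := hj.relIn.1 h5
    rw [hj.inj h7] at h8
    rw [h3 a b b' ⟨h6, h8⟩]

/-- (UP10) -/
theorem IsTransEmb.funInto (hj : IsTransEmb j) {f d r : M} (h : IsFunIntoIn f d r) :
    IsFunIntoIn (j f) (j d) (j r) := by
  refine ⟨hj.funOn h.1, fun x y hxy => ?_⟩
  obtain ⟨a, b, rfl, rfl, h1⟩ := hj.relIn.1 hxy
  exact (hj.mem_iff _ _).2 (h.2 a b h1)

/-- (UP11) -/
theorem IsTransEmb.injInto (hj : IsTransEmb j) {f d r : M} (h : IsInjIntoIn f d r) :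
    IsInjIntoIn (j f) (j d) (j r) := by
  refine ⟨hj.funOn h.1, fun x y hxy => ?_, ?_⟩
  · obtain ⟨a, b, rfl, rfl, h1⟩ := hj.relIn.1 hxy
    exact (hj.mem_iff _ _).2 (h.2.1 a b h1)
  · rintro x x' y ⟨h4, h5⟩
    obtain ⟨a, b, rfl, rfl, h6⟩ := hj.relIn.1 h4
    obtain ⟨a', b', rfl, h7, h8⟩ := hj.relIn.1 h5
    rw [hj.inj h7] at h8
    rw [h.2.2 a a' b ⟨h6, h8⟩]

/-- (UP12) -/
theorem IsTransEmb.cardLe (hj : IsTransEmb j) {d r : M} (h : CardLeIn d r) :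
    CardLeIn (j d) (j r) := by
  obtain ⟨f, hf⟩ := h
  exact ⟨j f, hj.injInto hf⟩

theorem IsTransEmb.Up1_trans (hj : IsTransEmb j) {a : M} (h : IsTransIn a) :
    IsTransIn (j a) := by
  intro y hy
  obtain ⟨y', hy', rfl⟩ := hj.mem.1 hy
  exact hj.subIn.2 (h y' hy')

/-- (UP13) -/
theorem IsTransEmb.ord (hj : IsTransEmb j) {a : M} (h : IsOrdIn a) : IsOrdIn (j a) := by
  refine ⟨hj.Up1_trans h.1, fun y hy => ?_⟩
  obtain ⟨y', hy', rfl⟩ := hj.mem.1 hy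
  exact hj.Up1_trans (h.2 y' hy')

/-- (UP14) `ω` is absolute.

Proof. `w = om M` (`isOmegaIn_iff`). `j w` is inductive in `N`. Let `v` be inductive in `N` and
suppose `j w ⊈ v`. `exists_el_subset (a := j w)`: the set `b` of all elements of `j w` not in `v`;
`hN.zf.foundation`: `x ∈ b` minimal, `x = j n`, `n ∈ om M`. `N.cases` in `M`: `n = 0`: `j n` is
empty, so equal to the empty element of `v`. `n = succ m`: `j m ∈ x`, so `j m ∉ b`, so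
`j m ∈ v` (and `j m ∈ j w`), so the successor `j n` of `j m` is in `v`. -/
theorem IsTransEmb.omega (hj : IsTransEmb j) {w : M} (h : IsOmegaIn w) : IsOmegaIn (j w) := by
  have hw : w = om M := isOmegaIn_iff.1 h
  obtain ⟨⟨⟨e, he, hew⟩, hs⟩, -⟩ := h
  have hsucc : ∀ {n s : M}, (∀ t : M, t ∈ s ↔ t ∈ n ∨ t = n) →
      ∀ t : N, t ∈ j s ↔ t ∈ j n ∨ t = j n := by
    intro n s hns t
    rw [hj.mem]
    constructor
    · rintro ⟨u, hu, rfl⟩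
      rcases (hns u).1 hu with h1 | rfl
      · exact Or.inl ((hj.mem_iff _ _).2 h1)
      · exact Or.inr rfl
    · rintro (h1 | rfl)
      · obtain ⟨u, hu, rfl⟩ := hj.mem.1 h1
        exact ⟨u, (hns u).2 (Or.inl hu), rfl⟩
      · exact ⟨n, (hns n).2 (Or.inr rfl), rfl⟩
  refine ⟨⟨⟨j e, fun t ht => ?_, (hj.mem_iff _ _).2 hew⟩, fun n hn => ?_⟩, fun v hv => ?_⟩
  · obtain ⟨u, hu, -⟩ := hj.mem.1 ht
    exact he u hu
  · obtain ⟨n', hn', rfl⟩ := hj.mem.1 hn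
    obtain ⟨s, h1, h2⟩ := hs n' hn'
    exact ⟨j s, hsucc h1, (hj.mem_iff _ _).2 h2⟩
  · intro z hz
    by_contra hzv
    obtain ⟨b, hb⟩ := exists_el_subset (M := N) (a := j w) (fun x : El (j w) => ¬ (x.1 ∈ v))
      inferInstance
    obtain ⟨x, hx, hmin⟩ := hN.zf.foundation b ⟨z, (hb z).2 ⟨hz, hzv⟩⟩
    obtain ⟨hx1, hx2⟩ := (hb x).1 hx
    obtain ⟨n, hn, rfl⟩ := hj.mem.1 hx1
    have hn' : n ∈ om M := hw ▸ hn
    obtain ⟨⟨e', he', hev'⟩, hs'⟩ := hv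
    apply hx2
    rcases Pool.Agent.MP_5db68c_lc.N.cases (⟨n, hn'⟩ : Pool.Agent.MP_5db68c_lc.N M) with
      h1 | ⟨m, h1⟩
    · have h2 : j n = e' := by
        refine ext' fun t => ⟨fun ht => ?_, fun ht => absurd ht (he' t)⟩
        obtain ⟨u, hu, -⟩ := hj.mem.1 ht
        exfalso
        refine Pool.Agent.MP_5db68c_lc.N.not_mem_zero (M := M) u ?_
        rw [← h1]
        exact hu
      change j n ∈ v
      rw [h2]
      exact hev'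
    · have h2 : ∀ t : M, t ∈ n ↔ t ∈ m.1 ∨ t = m.1 := by
        intro t
        rw [← Pool.Agent.MP_5db68c_lc.N.mem_succ, ← h1]
      have h3 : j m.1 ∈ j n := (hj.mem_iff _ _).2 ((h2 m.1).2 (Or.inr rfl))
      have h4 : j m.1 ∈ j w := (hj.mem_iff _ _).2 (hw.symm ▸ m.2)
      have h5 : j m.1 ∈ v := by
        by_contra h6
        exact hmin _ h3 ((hb _).2 ⟨h4, h6⟩)
      obtain ⟨s, h6, h7⟩ := hs' _ h5
      have h8 : j n = s := ext' fun t => by rw [hsucc h2, h6]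
      change j n ∈ v
      rw [h8]
      exact h7

/-- (UP15) -/
theorem IsTransEmb.ladder (hj : IsTransEmb j) {l o d : M} (h : IsLadderIn l o d) :
    IsLadderIn (j l) (j o) (j d) := by
  obtain ⟨h1, h2, h3, h4⟩ := h
  refine ⟨hj.funInto h1, ?_, fun α hα => ?_, ?_⟩
  · rintro ν ν' γ γ' ⟨⟨h5, h6⟩, h7⟩
    obtain ⟨a, b, rfl, rfl, h8⟩ := hj.relIn.1 h5
    obtain ⟨a', b', rfl, rfl, h9⟩ := hj.relIn.1 h6
    exact (hj.mem_iff _ _).2 (h2 a a' b b' ⟨⟨h8, h9⟩, (hj.mem_iff _ _).1 h7⟩)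
  · obtain ⟨α', hα', rfl⟩ := hj.mem.1 hα
    obtain ⟨ν, γ, h5, h6⟩ := h3 α' hα'
    exact ⟨j ν, j γ, hj.relIn'.2 h5, (hj.mem_iff _ _).2 h6⟩
  · rintro ν γ ⟨h5, h6⟩ α hα
    obtain ⟨a, b, rfl, rfl, h7⟩ := hj.relIn.1 h5
    obtain ⟨α', hα', rfl⟩ := hj.mem.1 hα
    obtain ⟨ν', γ', h8, h9, h10⟩ := h4 a b ⟨h7, hj.limPt.1 h6⟩ α' hα'
    exact ⟨j ν', j γ', (hj.mem_iff _ _).2 h8, hj.relIn'.2 h9, (hj.mem_iff _ _).2 h10⟩

/-- (UP16) -/
theorem IsTransEmb.ctblUnb (hj : IsTransEmb j) {A d w : M} (h : IsCtblUnbIn A d w) :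
    IsCtblUnbIn (j A) (j d) (j w) := by
  obtain ⟨h1, ⟨f, hf⟩, h3⟩ := h
  refine ⟨hj.subIn.2 h1, ⟨j f, hj.injInto hf⟩, fun α hα => ?_⟩
  obtain ⟨α', hα', rfl⟩ := hj.mem.1 hα
  obtain ⟨β, h4, h5⟩ := h3 α' hα'
  exact ⟨j β, (hj.mem_iff _ _).2 h4, (hj.mem_iff _ _).2 h5⟩

end

end Pool.Agent.CG3
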