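import Pool.Agent.Lib.MP_99c1f3_lc.CG.O.Up1

/-!
# CG3, block O, module Up2: the principle goes up
-/

set_option autoImplicit false
set_option synthInstance.maxSize 100000
set_option synthInstance.maxHeartbeats 400000

namespace Pool.Agent.CG3

open Pool.Agent.MP_5db68c_lc hiding RelIn
open Pool.Agent.StarRoth.BV Pool.Agent.Lib.MP_6b4821_lc

section

variable {M N : Type} [Membership M M] [Membership N N] [hM : IsZF M] [hN : IsZF N] {j : M → N}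

/-- (US1) -/
theorem IsTransEmb.pairing (hj : IsTransEmb j) {p o : M} (h : IsPairingIn p o) :
    IsPairingIn (j p) (j o) := by
  constructor
  · rintro a b ⟨ha, hb⟩
    obtain ⟨a', ha', rfl⟩ := hj.mem.1 ha
    obtain ⟨b', hb', rfl⟩ := hj.mem.1 hb
    obtain ⟨c, hc, h1⟩ := h.1 a' b' ⟨ha', hb'⟩
    exact ⟨j c, (hj.mem_iff _ _).2 hc, hj.tRelIn.2 ⟨a', b', c, rfl, rfl, rfl, h1⟩⟩
  · rintro a b a' b' c ⟨h1, h2⟩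
    obtain ⟨x, y, z, rfl, rfl, rfl, h3⟩ := hj.tRelIn.1 h1
    obtain ⟨x', y', z', rfl, rfl, hz, h4⟩ := hj.tRelIn.1 h2
    have e := hj.inj hz
    subst e
    obtain ⟨e1, e2⟩ := h.2 _ _ _ _ _ ⟨h3, h4⟩
    rw [e1, e2]
    exact ⟨rfl, rfl⟩

/-- (US2) -/
theorem IsTransEmb.starClub (hj : IsTransEmb j) {D o₂ o₃ : M} (h : StarClub D o₂ o₃) :
    StarClub (j D) (j o₂) (j o₃) := by
  obtain ⟨h1, h2, h3⟩ := h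
  refine ⟨?_, ?_, ?_⟩
  · intro x γ hx
    obtain ⟨x', γ', rfl, rfl, h4⟩ := hj.relIn.1 hx
    exact (hj.mem_iff _ _).2 (h1 x' γ' h4)
  · rintro x α ⟨hx, hα⟩
    obtain ⟨x', hx', rfl⟩ := hj.mem.1 hx
    obtain ⟨α', hα', rfl⟩ := hj.mem.1 hα
    obtain ⟨γ, h4, h5⟩ := h2 x' α' ⟨hx', hα'⟩
    exact ⟨j γ, hj.relIn'.2 h4, (hj.mem_iff _ _).2 h5⟩
  · rintro x γ ⟨⟨hx, hγ⟩, ⟨α, hα⟩, h4⟩
    obtain ⟨x', hx', rfl⟩ := hj.mem.1 hx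
    obtain ⟨γ', hγ', rfl⟩ := hj.mem.1 hγ
    obtain ⟨α', hα', rfl⟩ := hj.mem.1 hα
    refine hj.relIn'.2 (h3 x' γ' ⟨⟨hx', hγ'⟩, ⟨α', hα'⟩, ?_⟩)
    intro a ha
    obtain ⟨β, h5, h6, h7⟩ := h4 (j a) ((hj.mem_iff _ _).2 ha)
    obtain ⟨β', hβ', rfl⟩ := hj.mem.1 h6
    exact ⟨β', hj.relIn'.1 h5, hβ', (hj.mem_iff _ _).1 h7⟩

/-- (US3) -/
theorem IsTransEmb.starLad (hj : IsTransEmb j) {E D w o₁ o₂ o₃ : M}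
    (h : StarLad E D w o₁ o₂ o₃) : StarLad (j E) (j D) (j w) (j o₁) (j o₂) (j o₃) := by
  rintro d ⟨hd, h1⟩
  obtain ⟨d', hd', rfl⟩ := hj.mem.1 hd
  rcases h d' ⟨hd', hj.limPt.1 h1⟩ with ⟨A, hA⟩ | ⟨l, hl, h2⟩
  · exact Or.inl ⟨j A, hj.ctblUnb hA⟩
  · refine Or.inr ⟨j l, hj.ladder hl, ?_⟩
    intro x hx
    obtain ⟨x', hx', rfl⟩ := hj.mem.1 hx
    obtain ⟨β, hβ, h3⟩ := h2 x' hx'
    refine ⟨j β, (hj.mem_iff _ _).2 hβ, ?_⟩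
    rintro ν γ ⟨⟨h4, h5⟩, h6⟩
    obtain ⟨ν', γ', rfl, rfl, h7⟩ := hj.relIn.1 h4
    exact hj.relIn'.2 (h3 ν' γ' ⟨⟨h7, (hj.mem_iff _ _).1 h5⟩, hj.relIn'.1 h6⟩)

/-- (US4) -/
theorem IsTransEmb.starCol (hj : IsTransEmb j) {E o₁ o₃ : M} (h : StarCol E o₁ o₃) :
    StarCol (j E) (j o₁) (j o₃) := by
  intro b hb
  obtain ⟨b', hb', rfl⟩ := hj.mem.1 hb
  obtain ⟨c, hc, h1⟩ := h b' hb'
  refine ⟨j c, hj.funInto hc, ?_⟩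
  rintro x y n ⟨⟨h2, h3⟩, hxy⟩ ⟨⟨α, hα⟩, h4⟩
  obtain ⟨x', n', rfl, rfl, h5⟩ := hj.relIn.1 h2
  obtain ⟨y', n₂, rfl, hn, h6⟩ := hj.relIn.1 h3
  have e := hj.inj hn
  subst e
  obtain ⟨α', hα', rfl⟩ := hj.mem.1 hα
  refine h1 x' y' n₂ ⟨⟨h5, h6⟩, fun e => hxy (congrArg j e)⟩ ⟨⟨α', hα'⟩, ?_⟩
  intro a ha
  obtain ⟨ν, ⟨h7, h8⟩, h9, h10⟩ := h4 (j a) ((hj.mem_iff _ _).2 ha)
  obtain ⟨ν', hν', rfl⟩ := hj.mem.1 h7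
  exact ⟨ν', ⟨hν', (hj.mem_iff _ _).1 h8⟩, hj.relIn'.1 h9, hj.relIn'.1 h10⟩

/-- (US5) The principle goes up. -/
theorem IsTransEmb.star (hj : IsTransEmb j) {w o₁ o₂ o₃ : M} (h : StarIn w o₁ o₂ o₃) :
    StarIn (j w) (j o₁) (j o₂) (j o₃) := by
  obtain ⟨⟨p, hp⟩, ⟨q, hq⟩, E, D, h1, h2, h3⟩ := h
  exact ⟨⟨j p, hj.pairing hp⟩, ⟨j q, hj.pairing hq⟩, j E, j D, hj.starClub h1, hj.starLad h2,
    hj.starCol h3⟩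

end

end Pool.Agent.CG3
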